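import Mathlib
import Pool.Agent.V11216.NullFiniteCore

/-!
# MP_ea2cf4_gt : a closed Haar-null set outside the σ-ideal generated by Borel null-finite sets
-/

namespace Pool.Agent.Results.MP_ea2cf4_gt.ClosedHaarNull

open Set Filter Topology Pool.Agent.V11216.NullFiniteCore

/-- There is an abelian (compact) Polish group `X`, written multiplicatively, and a closed
Haar-null subset `F` of `X` such that no countable family of Borel null-finite subsets of `X`
covers `F`. -/
theorem result : ∃ (X : Type) (_ : CommGroup X) (_ : TopologicalSpace X),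
    IsTopologicalGroup X ∧ PolishSpace X ∧ CompactSpace X ∧
    ∃ F : Set X, IsClosed F ∧ HaarNull F ∧
      ∀ B : ℕ → Set X, (∀ i, IsBorel (B i)) → (∀ i, NullFinite (B i)) → ¬ F ⊆ ⋃ i, B i :=
  ⟨∀ n, C n, inferInstance, inferInstance, inferInstance, inferInstance, inferInstance,
    A, isClosed_A, haarNull_A, A_not_covered⟩

end Pool.Agent.Results.MP_ea2cf4_gt.ClosedHaarNull
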